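import Pool.Agent.Lib_helper30.OCN.Own239
import Pool.Agent.Lib_helper87.OCN.YcJN
import Pool.Agent.Lib_helper16.OCN.YcJ_Game

/-!
# MP_aeb124_co: in the monotone oriented-cycle game OBreaker wins for every bias `b ≥ (239 / 338 + ε) n`
and all large `n`; here `239 / 338 < 1 / √2`

The game is encoded exactly as in the frozen statements `S10797` and `S10798`.
-/

set_option autoImplicit false

namespace Pool.Agent.Results.MP_aeb124_co.BelowOneOverSqrtTwo

/-- `239 / 338 < 1 / √2`, and for every `ε > 0`, all large `n` and all `b ≥ (239 / 338 + ε) n`, in the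
monotone orientation game on `K_n` (OMaker first orients 1 edge, OBreaker 1 to `b` edges per turn) OMaker
cannot force a directed cycle: OBreaker wins. -/
theorem result :
  (239 : ℝ) / 338 < 1 / Real.sqrt 2 ∧
  ∀ ε : ℝ, 0 < ε → ∃ N : ℕ, ∀ n : ℕ, N ≤ n → ∀ b : ℕ, (239 / 338 + ε) * (n : ℝ) ≤ (b : ℝ) →
    ¬ (∀ WM WB : Set (Finset (Fin n × Fin n)),
      (∀ D : Finset (Fin n × Fin n),
          (∃ v : Fin n, Relation.TransGen (fun x y => (x, y) ∈ D) v v) →
            D ∈ WM ∧ D ∈ WB) →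
      (∀ D : Finset (Fin n × Fin n),
          (∃ i j : Fin n, i ≠ j ∧ (i, j) ∉ D ∧ (j, i) ∉ D ∧ insert (i, j) D ∈ WB) →
            D ∈ WM) →
      (∀ D : Finset (Fin n × Fin n),
          (∃ i j : Fin n, i ≠ j ∧ (i, j) ∉ D ∧ (j, i) ∉ D) →
          (∀ A : Finset (Fin n × Fin n), A.Nonempty → A.card ≤ b →
              (∀ p ∈ A, p.1 ≠ p.2 ∧ p ∉ D ∧ p.swap ∉ D ∧ p.swap ∉ A) →
                D ∪ A ∈ WM) →
            D ∈ WB) →
      (∅ : Finset (Fin n × Fin n)) ∈ WM) := by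
  refine ⟨?_, Pool.Agent.OCN.obreaker239 (Pool.Agent.OCN.numThm_of_game
    (fun P => Pool.Agent.OCN.YC.gm_game P) rfl rfl rfl rfl rfl rfl rfl rfl)⟩
  have h1 : Real.sqrt 2 < 338 / 239 := by
    rw [Real.sqrt_lt' (by norm_num)]
    norm_num
  have h2 : 0 < Real.sqrt 2 := Real.sqrt_pos.2 (by norm_num)
  rw [div_lt_div_iff₀ (by norm_num) h2]
  linarith

end Pool.Agent.Results.MP_aeb124_co.BelowOneOverSqrtTwo
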