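import Pool.Agent.Lib_helper93.OC.Game

/-!
# MP_aeb124_co: in the monotone oriented-cycle game OMaker wins for every bias `b ≤ (2 - √2 - ε) n`

The game is encoded exactly as in the frozen statement `S10797`, with `1 / √2` replaced by `2 - √2`.
-/

set_option autoImplicit false

namespace Pool.Agent.Results.MP_aeb124_co.TwoMinusSqrtTwo

open Pool.Agent.Lib_helper93.OC

/-- For every `ε > 0` and all large `n`, if `1 ≤ b ≤ (2 - √2 - ε) n` then in the monotone orientation game on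
`K_n` (OMaker first orients 1 edge, OBreaker 1 to `b` edges per turn) OMaker can force a directed cycle. -/
theorem result :
  ∀ ε : ℝ, 0 < ε → ∃ N : ℕ, ∀ n : ℕ, N ≤ n → ∀ b : ℕ, 1 ≤ b →
    (b : ℝ) ≤ (2 - Real.sqrt 2 - ε) * (n : ℝ) →
    ∀ WM WB : Set (Finset (Fin n × Fin n)),
      (∀ D : Finset (Fin n × Fin n),
          (∃ v : Fin n, Relation.TransGen (fun x y => (x, y) ∈ D) v v) →
            D ∈ WM ∧ D ∈ WB) →
      (∀ D : Finset (Fin n × Fin n),
          (∃ i j : Fin n, i ≠ j ∧ (i, j) ∉ D ∧ (j, i) ∉ D ∧ insert (i, j) D ∈ WB) →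
            D ∈ WM) →
      (∀ D : Finset (Fin n × Fin n),
          (∃ i j : Fin n, i ≠ j ∧ (i, j) ∉ D ∧ (j, i) ∉ D) →
          (∀ A : Finset (Fin n × Fin n), A.Nonempty → A.card ≤ b →
              (∀ p ∈ A, p.1 ≠ p.2 ∧ p ∉ D ∧ p.swap ∉ D ∧ p.swap ∉ A) →
                D ∪ A ∈ WM) →
            D ∈ WB) →
      (∅ : Finset (Fin n × Fin n)) ∈ WM := by
  intro ε hε
  obtain ⟨N, hN⟩ := exists_par ε hε
  refine ⟨N, ?_⟩
  intro n hn b _ hb WM WB h1 h2 h3
  obtain ⟨B, K, η, δ, ε', hbB, par⟩ := hN n hn b hb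
  by_contra hcon
  have hG := GG_of_game (V := Fin n) hbB WM WB h1 h2 h3
  refine noGG par (Fintype.card_fin n) hG ⟨∅, Or.inl hcon, ?_⟩
  funext x y
  simp

end Pool.Agent.Results.MP_aeb124_co.TwoMinusSqrtTwo
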